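import Mathlib
import Pool.Agent.V1193.PG.G

set_option autoImplicit false

/-!
# Prime Pell numbers: a dichotomy for sets of indices

A Pell number `P_n` with even `n > 2` is composite.  With `α = (1 + √2) ^ 2` the Pell number
`P_(2 k + 1)` is `⌈β α ^ k⌉` for the amplitude `β = (1 + √2) / (2 √2)`.  For a real amplitude `β > 0`
let `E β` be the set of the `k` with `⌈β α ^ k⌉` prime.  So the question asks whether `E` is infinite
at that amplitude.  We prove, for every set `S`: for almost every amplitude, `⌈β α ^ k⌉` is prime for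
infinitely many `k ∈ S` if `∑ 1 / k` over `S` diverges, and for only finitely many if it converges.
-/

namespace Pool.Agent.Results.MP_c66c79_nt.Dichotomy

open Filter Topology MeasureTheory

/-- The Pell numbers. -/
def pell : ℕ → ℕ
  | 0 => 0
  | 1 => 1
  | (n + 2) => 2 * pell (n + 1) + pell n

/-- The number `3 + 2 √2`. -/
noncomputable def α : ℝ := (1 + Real.sqrt 2) ^ 2

/-- The smallest integer that is at least `β α ^ k`. -/
noncomputable def N (β : ℝ) (k : ℕ) : ℕ := ⌈β * α ^ k⌉₊

/-- The indices of the prime values. -/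
def E (β : ℝ) : Set ℕ := {k | (N β k).Prime}

lemma pell_eq (n : ℕ) : pell n = Pool.Agent.V1193.BP.Pell.R n := by
  induction n using Nat.twoStepInduction with
  | zero => rfl
  | one => rfl
  | more n h1 h2 =>
    show 2 * pell (n + 1) + pell n = 2 * Pool.Agent.V1193.BP.Pell.R (n + 1) + Pool.Agent.V1193.BP.Pell.R n
    rw [h1, h2]

/-- **Main theorem.** -/
theorem result :
    -- the values at the amplitude `(1 + √2) / (2 √2)`, and the question
    (∀ k : ℕ, N ((1 + Real.sqrt 2) / (2 * Real.sqrt 2)) k = pell (2 * k + 1)) ∧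
    ({n : ℕ | (pell n).Prime}.Infinite ↔ (E ((1 + Real.sqrt 2) / (2 * Real.sqrt 2))).Infinite) ∧
    -- the dichotomy
    (∀ S : Set ℕ, ∀ᵐ β : ℝ, 0 < β →
      ((S ∩ E β).Infinite ↔ ¬ Summable (S.indicator fun k : ℕ => 1 / (k : ℝ)))) := by
  refine ⟨fun k => ?_, ?_, fun S =>
    Pool.Agent.V1193.PE.dichotomy Pool.Agent.V1193.PG.al2_gt Pool.Agent.V1193.PG.dio2 0 S⟩
  · rw [pell_eq]
    exact Pool.Agent.V1193.PG.value3 k
  · simp only [pell_eq]
    exact Pool.Agent.V1193.PG.question3

end Pool.Agent.Results.MP_c66c79_nt.Dichotomy
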