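import Mathlib
import Pool.Agent.V1193.PG.G
import Pool.Agent.H295R3.Hoheisel

set_option autoImplicit false

/-!
# Prime Pell numbers: how often the values are prime

A Pell number `P_n` with even `n > 2` is composite.  With `α = (1 + √2) ^ 2` the Pell number
`P_(2 k + 1)` is `⌈β α ^ k⌉` for the amplitude `β = (1 + √2) / (2 √2)`.  For a real amplitude `β > 0`
let `E β` be the set of the `k` with `⌈β α ^ k⌉` prime.  So the question asks whether `E` is infinite
at that amplitude.  We prove, with constants `c > 0` and `C` that do not depend on the amplitude: for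
almost every amplitude, for ALL large `X` and all `Y ≥ X (log X) ^ C`, at least `c log (Y / X)` of the
numbers `⌈β α ^ k⌉`, `X ≤ k ≤ Y`, are prime.
-/

namespace Pool.Agent.Results.MP_c66c79_nt.Growth

open Filter Topology MeasureTheory

/-- The Pell numbers. -/
def pell : ℕ → ℕ
  | 0 => 0
  | 1 => 1
  | (n + 2) => 2 * pell (n + 1) + pell n

/-- The number `3 + 2 √2`. -/
noncomputable def α : ℝ := (1 + Real.sqrt 2) ^ 2

/-- The smallest integer that is at least `β α ^ k`. -/
noncomputable def N (β : ℝ) (k : ℕ) : ℕ := ⌈β * α ^ k⌉₊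

/-- The indices of the prime values. -/
def E (β : ℝ) : Set ℕ := {k | (N β k).Prime}

lemma pell_eq (n : ℕ) : pell n = Pool.Agent.V1193.BP.Pell.R n := by
  induction n using Nat.twoStepInduction with
  | zero => rfl
  | one => rfl
  | more n h1 h2 =>
    show 2 * pell (n + 1) + pell n = 2 * Pool.Agent.V1193.BP.Pell.R (n + 1) + Pool.Agent.V1193.BP.Pell.R n
    rw [h1, h2]

/-- **Main theorem.** -/
theorem result :
    -- the values at the amplitude `(1 + √2) / (2 √2)`, and the question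
    (∀ k : ℕ, N ((1 + Real.sqrt 2) / (2 * Real.sqrt 2)) k = pell (2 * k + 1)) ∧
    ({n : ℕ | (pell n).Prime}.Infinite ↔ (E ((1 + Real.sqrt 2) / (2 * Real.sqrt 2))).Infinite) ∧
    -- the number of prime values in all intervals `[X, Y]` with `Y ≥ X (log X) ^ C`
    (∃ (c : ℝ) (C : ℕ), 0 < c ∧ ∀ᵐ β : ℝ, 0 < β → ∀ᶠ X : ℕ in atTop, ∀ Y : ℕ,
      (X : ℝ) * Real.log X ^ C ≤ Y →
      c * Real.log ((Y : ℝ) / X) ≤ ((E β ∩ Set.Icc X Y).ncard : ℝ)) ∧
    -- the number of prime values up to `X`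
    (∃ c : ℝ, 0 < c ∧ ∀ᵐ β : ℝ, 0 < β → ∀ᶠ X : ℕ in atTop,
      c * Real.log X ≤ ((E β ∩ Set.Icc 1 X).ncard : ℝ)) := by
  refine ⟨fun k => ?_, ?_,
    Pool.Agent.V1193.PE.spread Pool.Agent.V1193.PG.al2_gt Pool.Agent.V1193.PG.dio2
      Pool.Agent.H295R3.D.hoheisel 0,
    Pool.Agent.V1193.PE.dens Pool.Agent.V1193.PG.al2_gt Pool.Agent.V1193.PG.dio2
      Pool.Agent.H295R3.D.hoheisel 0⟩
  · rw [pell_eq]
    exact Pool.Agent.V1193.PG.value3 k
  · simp only [pell_eq]
    exact Pool.Agent.V1193.PG.question3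

end Pool.Agent.Results.MP_c66c79_nt.Growth
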